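import Mathlib
import Pool.Agent.Lib.P325n.Defs

/-!
# The gap problem for unique games on graphs with a spectral gap
-/

namespace Pool.Agent.P325e

open Pool.Agent.P325f1f.Dich Pool.Agent.P325n

/-- The second largest eigenvalue of the normalised adjacency matrix of the (multi)graph of the
game is at most `μ`: for a uniformly random edge `e`, functions `f`, `g` with
`E f (src e) = E g (dst e) = 0` satisfy
`E f (src e) g (dst e) ≤ μ (E f (src e) ^ 2 + E g (dst e) ^ 2) / 2`. -/
def SecondLE {U W Ω ι : Type} [Fintype ι] (I : Game U W Ω ι) (μ : ℝ) : Prop :=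
  ∀ (f : U → ℝ) (g : W → ℝ), ∑ e, f (I.src e) = 0 → ∑ e, g (I.dst e) = 0 →
    ∑ e, f (I.src e) * g (I.dst e) ≤
      μ * ((∑ e, f (I.src e) ^ 2 + ∑ e, g (I.dst e) ^ 2) / 2)

/-- The gap problem for games with second eigenvalue at most `μ` is NP-hard with completeness near
`c` and soundness near `0`: for all `ε, δ > 0` with `ε + δ < c` there is `q > 0` such that it is NP-hard
to distinguish games over `Fin q` with second eigenvalue at most `μ` of value at least `c - ε`
from those of value at most `δ`. -/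
def ExpHard (c μ : ℚ) : Prop :=
  ∀ ε δ : ℚ, 0 < ε → 0 < δ → ε + δ < c → ∃ q : ℕ, 0 < q ∧
    NPHard {I : Inst q | SecondLE I.game (μ : ℝ) ∧ ((c - ε : ℚ) : ℝ) ≤ I.game.value}
      {I : Inst q | SecondLE I.game (μ : ℝ) ∧ I.game.value ≤ ((δ : ℚ) : ℝ)}

end Pool.Agent.P325e
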