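import Mathlib
import Pool.Agent.Lib.P325e.Defs

/-!
# The numbered overlay

The edge number `E` of the overlay is a pair of edges `(e, e')` of the game and a constant part: a copy
number `t < a + b` and a permutation `π`. In the first `a` copies it is the edge `e`, in the last `b`
copies it joins `src e` to `dst e'` with constraint `π`.
-/

namespace Pool.Agent.P325e

open Pool.Agent.P325f1f.Dich Pool.Agent.P325n

variable {q : ℕ}

/-- The number of constant parts. -/
abbrev Cn (q a b : ℕ) : ℕ := (a + b) * Fintype.card (Equiv.Perm (Fin q))

/-- The copy number of a constant part. -/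
def tOf {a b : ℕ} (c : Fin (Cn q a b)) : Fin (a + b) := (finProdFinEquiv.symm c).1

/-- The permutation of a constant part. -/
noncomputable def piOf {a b : ℕ} (c : Fin (Cn q a b)) : Equiv.Perm (Fin q) :=
  (Fintype.equivFin (Equiv.Perm (Fin q))).symm (finProdFinEquiv.symm c).2

/-- The overlay of `a` copies of the instance with `b` copies of the complete game. -/
noncomputable def ovl (a b : ℕ) (hab : 0 < a + b) (I : Inst q) : Inst q where
  a := I.a
  b := I.b
  m := I.m * I.m * Cn q a b
  pos := Nat.mul_pos (Nat.mul_pos I.pos I.pos) (Nat.mul_pos hab Fintype.card_pos)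
  game :=
    { src := fun E => I.game.src (finProdFinEquiv.symm (finProdFinEquiv.symm E).1).1
      dst := fun E => if (tOf (finProdFinEquiv.symm E).2 : ℕ) < a
        then I.game.dst (finProdFinEquiv.symm (finProdFinEquiv.symm E).1).1
        else I.game.dst (finProdFinEquiv.symm (finProdFinEquiv.symm E).1).2
      perm := fun E => if (tOf (finProdFinEquiv.symm E).2 : ℕ) < a
        then I.game.perm (finProdFinEquiv.symm (finProdFinEquiv.symm E).1).1
        else piOf (finProdFinEquiv.symm E).2 }

end Pool.Agent.P325e
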