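import Mathlib
import Pool.Agent.Lib.P325e.Ovl
import Pool.Agent.Lib.P325n.Out

/-!
# P325e.OvlPoly (1 h): the numbered overlay in polynomial time

As `poly_app` in `P325n/Out.lean` and `poly_square` in `P325r/Square.lean` (both landed). The edge number
`E < m * m * C` (`C = Cn q a b` a constant) has `c = E % C`, `e = E / C / m`, `e' = E / C % m`. The left block is
`oneHot a (srcN e)` (bit `i` is `decide (i = srcN e)`, `poly_src`), the right block is
`oneHot b (dstN e)` or `oneHot b (dstN e')` according to `c` (finite case distinction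
`OutAux.polyC_cases_lt`), the matrix is that of `permN e` (finitely many values, `OutAux.polyC_cases`,
`poly_perm`) or the constant `piOf c`.
-/

namespace Pool.Agent.P325e

open Pool.Agent.P325f1f.Dich Pool.Agent.P325n Pool.Agent.Lib.PolyTime

variable {q : ℕ}

namespace OvlAux

theorem Cn_pos {a b : ℕ} (hab : 0 < a + b) : 0 < Cn q a b := Nat.mul_pos hab Fintype.card_pos

/-- copy number of a constant part, as a natural number -/
def tN (q a b c : ℕ) : ℕ := if h : c < Cn q a b then (tOf (q := q) (⟨c, h⟩ : Fin (Cn q a b)) : ℕ) else 0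

/-- permutation of a constant part -/
noncomputable def pN (q a b c : ℕ) : Equiv.Perm (Fin q) :=
  if h : c < Cn q a b then piOf (⟨c, h⟩ : Fin (Cn q a b)) else 1

/-- permutation matrix -/
def matP (π : Equiv.Perm (Fin q)) : List Bool :=
  (List.finRange q).flatMap (fun i => oneHot q (π i))

/-- right end of an edge of type `c` -/
def rgt (a b c : ℕ) (I : Inst q) (k : ℕ) : List Bool :=
  if tN q a b c < a then oneHot I.b (I.dstN (k / Cn q a b / I.m))
  else oneHot I.b (I.dstN (k / Cn q a b % I.m))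

/-- matrix of an edge of type `c` -/
noncomputable def mtx (a b c : ℕ) (I : Inst q) (k : ℕ) : List Bool :=
  if tN q a b c < a then matP (I.permN (k / Cn q a b / I.m)) else matP (pN q a b c)

/-- the block of an edge of the overlay -/
noncomputable def blkO (a b : ℕ) (I : Inst q) (k : ℕ) : List Bool :=
  oneHot I.a (I.srcN (k / Cn q a b / I.m)) ++
    (rgt a b (k % Cn q a b) I k ++ mtx a b (k % Cn q a b) I k)

theorem encode_ovl (a b : ℕ) (hab : 0 < a + b) (I : Inst q) :
    (ovl a b hab I).encode = un I.a ++ (false :: (un I.b ++ (false ::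
      (un (I.m * I.m * Cn q a b) ++
        (false :: (List.range (I.m * I.m * Cn q a b)).flatMap (blkO a b I)))))) := by
  have key : (List.finRange (I.m * I.m * Cn q a b)).flatMap
      (fun E => oneHot I.a ((ovl a b hab I).game.src E) ++
        (oneHot I.b ((ovl a b hab I).game.dst E) ++ matP ((ovl a b hab I).game.perm E))) =
      (List.range (I.m * I.m * Cn q a b)).flatMap (blkO a b I) := ?_
  · rw [← key]
    rfl
  refine OutAux.flatMap_finRange (n := I.m * I.m * Cn q a b) _ _ fun E => ?_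
  have hC : 0 < Cn q a b := Cn_pos hab
  have hm := I.pos
  have hE : (E : ℕ) < I.m * I.m * Cn q a b := E.2
  have h0 : (E : ℕ) / Cn q a b < I.m * I.m := (Nat.div_lt_iff_lt_mul hC).2 hE
  have h1 : (E : ℕ) / Cn q a b / I.m < I.m := (Nat.div_lt_iff_lt_mul hm).2 h0
  have h2 : (E : ℕ) / Cn q a b % I.m < I.m := Nat.mod_lt _ hm
  have h3 : (E : ℕ) % Cn q a b < Cn q a b := Nat.mod_lt _ hC
  have k1 : I.srcN ((E : ℕ) / Cn q a b / I.m) = I.game.src ⟨(E : ℕ) / Cn q a b / I.m, h1⟩ := by
    simp [Inst.srcN, h1]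
  have k2 : I.dstN ((E : ℕ) / Cn q a b / I.m) = I.game.dst ⟨(E : ℕ) / Cn q a b / I.m, h1⟩ := by
    simp [Inst.dstN, h1]
  have k3 : I.dstN ((E : ℕ) / Cn q a b % I.m) = I.game.dst ⟨(E : ℕ) / Cn q a b % I.m, h2⟩ := by
    simp [Inst.dstN, h2]
  have k4 : I.permN ((E : ℕ) / Cn q a b / I.m) = I.game.perm ⟨(E : ℕ) / Cn q a b / I.m, h1⟩ := by
    simp [Inst.permN, h1]
  have k5 : tN q a b ((E : ℕ) % Cn q a b) =
      (tOf (q := q) (⟨(E : ℕ) % Cn q a b, h3⟩ : Fin (Cn q a b)) : ℕ) := by
    simp [tN, h3]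
  have k6 : pN q a b ((E : ℕ) % Cn q a b) =
      piOf (⟨(E : ℕ) % Cn q a b, h3⟩ : Fin (Cn q a b)) := by
    simp [pN, h3]
  unfold blkO rgt mtx
  rw [k1, k2, k3, k4, k5, k6]
  have e1 : (finProdFinEquiv.symm (show Fin (I.m * I.m * Cn q a b) from E)).2 =
      ⟨(E : ℕ) % Cn q a b, h3⟩ := rfl
  by_cases ht : (tOf (q := q) (⟨(E : ℕ) % Cn q a b, h3⟩ : Fin (Cn q a b)) : ℕ) < a
  · rw [if_pos ht, if_pos ht]
    have d1 : (ovl a b hab I).game.dst E = I.game.dst ⟨(E : ℕ) / Cn q a b / I.m, h1⟩ := if_pos ht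
    have d2 : (ovl a b hab I).game.perm E = I.game.perm ⟨(E : ℕ) / Cn q a b / I.m, h1⟩ := if_pos ht
    rw [d1, d2]
    rfl
  · rw [if_neg ht, if_neg ht]
    have d1 : (ovl a b hab I).game.dst E = I.game.dst ⟨(E : ℕ) / Cn q a b % I.m, h2⟩ := if_neg ht
    have d2 : (ovl a b hab I).game.perm E =
        piOf (⟨(E : ℕ) % Cn q a b, h3⟩ : Fin (Cn q a b)) := if_neg ht
    rw [d1, d2]
    rfl

end OvlAux

open OvlAux

theorem poly_ovl (a b : ℕ) (hab : 0 < a + b) :
    PolyC (fun _ : Inst q => True) [Inst.encode] (fun I => (ovl a b hab I).encode) := by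
  have hC : 0 < Cn q a b := Cn_pos hab
  have hw : PolyC (fun _ : Inst q => True) [Inst.encode] (fun I => I.encode) :=
    PolyC.var (by simp)
  have ha := poly_a (w := fun I : Inst q => I) hw
  have hb := poly_b (w := fun I : Inst q => I) hw
  have hm := poly_m (w := fun I : Inst q => I) hw
  have hmC := (hm.mul hm).mul (PolyN.const (Cn q a b))
  -- level 1: the edge number
  have hw1 := Pool.Agent.Lib.Pa7c826.up (n := fun I : Inst q => I.m * I.m * Cn q a b) hw
  have hk := Pool.Agent.Lib.Pa7c826.last (D := fun _ : Inst q => True) (ctx := [Inst.encode])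
    (n := fun I : Inst q => I.m * I.m * Cn q a b)
  have hm1 := Pool.Agent.Lib.Pa7c826.upN (n := fun I : Inst q => I.m * I.m * Cn q a b) hm
  have hc := Pool.Agent.Lib.Pa7c826.PolyN.mod hk (PolyN.const (Cn q a b)) (fun _ _ => hC)
  have h0 := Pool.Agent.Lib.Pa7c826.PolyN.div hk (PolyN.const (Cn q a b)) (fun _ _ => hC)
  have he := Pool.Agent.Lib.Pa7c826.PolyN.div h0 hm1 (fun p _ => p.1.pos)
  have he' := Pool.Agent.Lib.Pa7c826.PolyN.mod h0 hm1 (fun p _ => p.1.pos)
  have ha1 := Pool.Agent.Lib.Pa7c826.upN (n := fun I : Inst q => I.m * I.m * Cn q a b) ha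
  have hb1 := Pool.Agent.Lib.Pa7c826.upN (n := fun I : Inst q => I.m * I.m * Cn q a b) hb
  have bd : ∀ p : Inst q × ℕ, (True ∧ p.2 < p.1.m * p.1.m * Cn q a b) →
      p.2 / Cn q a b / p.1.m < p.1.m := fun p hp =>
    (Nat.div_lt_iff_lt_mul p.1.pos).2 ((Nat.div_lt_iff_lt_mul hC).2 hp.2)
  have bd' : ∀ p : Inst q × ℕ, (True ∧ p.2 < p.1.m * p.1.m * Cn q a b) →
      p.2 / Cn q a b % p.1.m < p.1.m := fun p _ => Nat.mod_lt _ p.1.pos
  have hdst : ∀ {e : Inst q × ℕ → ℕ}, PolyN (fun p : Inst q × ℕ => True ∧ p.2 < p.1.m * p.1.m * Cn q a b)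
      (Pool.Agent.Lib.PolyTime.lift [Inst.encode] ++ [fun p => un p.2]) e →
      (∀ p : Inst q × ℕ, (True ∧ p.2 < p.1.m * p.1.m * Cn q a b) → e p < p.1.m) →
      PolyC (fun p : Inst q × ℕ => True ∧ p.2 < p.1.m * p.1.m * Cn q a b)
        (Pool.Agent.Lib.PolyTime.lift [Inst.encode] ++ [fun p => un p.2])
        (fun p => oneHot p.1.b (p.1.dstN (e p))) := by
    intro e hpe hlt
    refine PolyC.map_range (n := fun p : Inst q × ℕ => p.1.b)
      (φ := fun r => decide (r.2 = r.1.1.dstN (e r.1))) hb1 ?_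
    have hw2 := Pool.Agent.Lib.Pa7c826.up (n := fun p : Inst q × ℕ => p.1.b) hw1
    have he2 := Pool.Agent.Lib.Pa7c826.upN (n := fun p : Inst q × ℕ => p.1.b) hpe
    have hi := Pool.Agent.Lib.Pa7c826.last
      (D := fun p : Inst q × ℕ => True ∧ p.2 < p.1.m * p.1.m * Cn q a b)
      (ctx := Pool.Agent.Lib.PolyTime.lift [Inst.encode] ++ [fun p => un p.2])
      (n := fun p : Inst q × ℕ => p.1.b)
    exact poly_dst (w := fun r : (Inst q × ℕ) × ℕ => r.1.1) hw2 he2 hi
      (fun r hr => hlt r.1 hr.1) (fun r hr => hr.2)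
  have hblk : PolyC (fun p : Inst q × ℕ => True ∧ p.2 < p.1.m * p.1.m * Cn q a b)
      (Pool.Agent.Lib.PolyTime.lift [Inst.encode] ++ [fun p => un p.2])
        (fun p => blkO a b p.1 p.2) := by
    refine PolyC.append ?_ (PolyC.append ?_ ?_)
    · -- left end
      refine PolyC.map_range (n := fun p : Inst q × ℕ => p.1.a)
        (φ := fun r => decide (r.2 = r.1.1.srcN (r.1.2 / Cn q a b / r.1.1.m))) ha1 ?_
      have hw2 := Pool.Agent.Lib.Pa7c826.up (n := fun p : Inst q × ℕ => p.1.a) hw1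
      have he2 := Pool.Agent.Lib.Pa7c826.upN (n := fun p : Inst q × ℕ => p.1.a) he
      have hi := Pool.Agent.Lib.Pa7c826.last
        (D := fun p : Inst q × ℕ => True ∧ p.2 < p.1.m * p.1.m * Cn q a b)
        (ctx := Pool.Agent.Lib.PolyTime.lift [Inst.encode] ++ [fun p => un p.2])
        (n := fun p : Inst q × ℕ => p.1.a)
      exact poly_src (w := fun r : (Inst q × ℕ) × ℕ => r.1.1) hw2 he2 hi
        (fun r hr => bd r.1 hr.1) (fun r hr => hr.2)
    · -- right end
      refine OutAux.polyC_cases_lt (G := fun c (p : Inst q × ℕ) => rgt a b c p.1 p.2) hc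
        (fun p _ => Nat.mod_lt _ hC) (fun c => ?_)
      by_cases ht : tN q a b c < a
      · exact (hdst he bd).congr fun p _ => by simp only [rgt, if_pos ht]
      · exact (hdst he' bd').congr fun p _ => by simp only [rgt, if_neg ht]
    · -- the constraint
      refine OutAux.polyC_cases_lt (G := fun c (p : Inst q × ℕ) => mtx a b c p.1 p.2) hc
        (fun p _ => Nat.mod_lt _ hC) (fun c => ?_)
      by_cases ht : tN q a b c < a
      · have h1 := OutAux.polyC_cases (Finset.univ : Finset (Equiv.Perm (Fin q))).toList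
          (f := fun r : Inst q × ℕ => r.1.permN (r.2 / Cn q a b / r.1.m))
          (G := fun π (_ : Inst q × ℕ) => matP π)
          (fun π => poly_perm (w := fun r : Inst q × ℕ => r.1) hw1 he bd π)
          (fun r _ => by simp) (fun π => PolyC.const _)
        exact h1.congr fun p _ => by simp only [mtx, if_pos ht]
      · exact (PolyC.const (matP (pN q a b c))).congr fun p _ => by simp only [mtx, if_neg ht]
  refine ((PolyC.append ha (PolyC.cons false (PolyC.append hb (PolyC.cons false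
    (PolyC.append hmC (PolyC.cons false (PolyC.flatMap_range hmC hblk))))))).congr
      (fun I _ => ?_))
  rw [encode_ovl]

end Pool.Agent.P325e
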