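import Mathlib
import Pool.Agent.Lib.P325e.Ovl
import Pool.Agent.Lib.P325n.Eqv
import Pool.Agent.Lib.P325x.Overlay

/-!
# P325e.OvlVal (0.8 h): value and spectral gap of the numbered overlay

`Pool/Agent/Lib/P325x` has its own `Game` (same fields) with `overlay`, `overlay_gap`, `overlay_value`
(see `Pool/Agent/Results/MP_325f1f_lc/ExpanderThreshold.lean`). Let `toX I = ⟨I.src, I.dst, I.perm⟩`; its value is
the value of `I` by `rfl` (the two definitions are the same text). The edge set of the overlay is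
`(Fin a ⊕ Fin b) × (ι × ι × Perm Ω)`; the bijection with `Fin (m * m * Cn q a b)` is
`finSumFinEquiv`, `Fintype.equivFin`, `finProdFinEquiv`. Values: `value_congr` (`P325n/Eqv.lean`) with identity
on the vertices. Eigenvalue: rewrite the four sums along the bijection (`Equiv.sum_comp`).
-/

namespace Pool.Agent.P325e

open Pool.Agent.P325f1f.Dich Pool.Agent.P325n

variable {q : ℕ}

namespace OvlValAux

/-- The game as a game of `Pool/Agent/Lib/P325x`. -/
def toX {U W Ω ι : Type} (I : Game U W Ω ι) : Pool.Agent.Lib.P325x.Game U W Ω ι :=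
  ⟨I.src, I.dst, I.perm⟩

/-- A game of `Pool/Agent/Lib/P325x` as a game. -/
def ofX {U W Ω ι : Type} (I : Pool.Agent.Lib.P325x.Game U W Ω ι) : Game U W Ω ι :=
  ⟨I.src, I.dst, I.perm⟩

theorem value_toX {U W Ω ι : Type} [Fintype ι] (I : Game U W Ω ι) :
    (toX I).value = I.value := rfl

theorem value_ofX {U W Ω ι : Type} [Fintype ι] (I : Pool.Agent.Lib.P325x.Game U W Ω ι) :
    (ofX I).value = I.value := rfl

/-- The renumbering of the edges. -/
noncomputable def tw (q a b m : ℕ) :
    ((Fin a ⊕ Fin b) × (Fin m × Fin m × Equiv.Perm (Fin q))) ≃ Fin (m * m * Cn q a b) where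
  toFun t := finProdFinEquiv (finProdFinEquiv (t.2.1, t.2.2.1),
    finProdFinEquiv (finSumFinEquiv t.1, Fintype.equivFin (Equiv.Perm (Fin q)) t.2.2.2))
  invFun E := (finSumFinEquiv.symm (tOf (finProdFinEquiv.symm E).2),
    (finProdFinEquiv.symm (finProdFinEquiv.symm E).1).1,
    (finProdFinEquiv.symm (finProdFinEquiv.symm E).1).2,
    piOf (finProdFinEquiv.symm E).2)
  left_inv t := by
    obtain ⟨s, e, e', σ⟩ := t
    simp only [Equiv.symm_apply_apply, tOf, piOf]
  right_inv E := by
    simp only [Equiv.apply_symm_apply, tOf, piOf, Prod.mk.eta]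

theorem src_tw (a b : ℕ) (hab : 0 < a + b) (I : Inst q)
    (t : (Fin a ⊕ Fin b) × (Fin I.m × Fin I.m × Equiv.Perm (Fin q))) :
    (ovl a b hab I).game.src (tw q a b I.m t) = ((toX I.game).overlay a b).src t := by
  show I.game.src (finProdFinEquiv.symm (finProdFinEquiv.symm (finProdFinEquiv
    (finProdFinEquiv (t.2.1, t.2.2.1), _))).1).1 = I.game.src t.2.1
  simp only [Equiv.symm_apply_apply]

theorem dst_tw (a b : ℕ) (hab : 0 < a + b) (I : Inst q)
    (t : (Fin a ⊕ Fin b) × (Fin I.m × Fin I.m × Equiv.Perm (Fin q))) :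
    (ovl a b hab I).game.dst (tw q a b I.m t) = ((toX I.game).overlay a b).dst t := by
  obtain ⟨s, e, e', σ⟩ := t
  show (if (tOf (finProdFinEquiv.symm (finProdFinEquiv (finProdFinEquiv (e, e'),
      finProdFinEquiv (finSumFinEquiv s, Fintype.equivFin (Equiv.Perm (Fin q)) σ)))).2 : ℕ) < a
    then I.game.dst (finProdFinEquiv.symm (finProdFinEquiv.symm (finProdFinEquiv
      (finProdFinEquiv (e, e'), _))).1).1
    else I.game.dst (finProdFinEquiv.symm (finProdFinEquiv.symm (finProdFinEquiv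
      (finProdFinEquiv (e, e'), _))).1).2) = _
  simp only [Equiv.symm_apply_apply, tOf]
  cases s with
  | inl i =>
    rw [if_pos (by simp)]
    rfl
  | inr i =>
    rw [if_neg (by simp)]
    rfl

theorem perm_tw (a b : ℕ) (hab : 0 < a + b) (I : Inst q)
    (t : (Fin a ⊕ Fin b) × (Fin I.m × Fin I.m × Equiv.Perm (Fin q))) :
    (ovl a b hab I).game.perm (tw q a b I.m t) = ((toX I.game).overlay a b).perm t := by
  obtain ⟨s, e, e', σ⟩ := t
  show (if (tOf (finProdFinEquiv.symm (finProdFinEquiv (finProdFinEquiv (e, e'),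
      finProdFinEquiv (finSumFinEquiv s, Fintype.equivFin (Equiv.Perm (Fin q)) σ)))).2 : ℕ) < a
    then I.game.perm (finProdFinEquiv.symm (finProdFinEquiv.symm (finProdFinEquiv
      (finProdFinEquiv (e, e'), _))).1).1
    else piOf (finProdFinEquiv.symm (finProdFinEquiv (finProdFinEquiv (e, e'),
      finProdFinEquiv (finSumFinEquiv s, Fintype.equivFin (Equiv.Perm (Fin q)) σ)))).2) = _
  simp only [Equiv.symm_apply_apply, tOf, piOf]
  cases s with
  | inl i =>
    rw [if_pos (by simp)]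
    rfl
  | inr i =>
    rw [if_neg (by simp)]
    rfl

theorem gap_congr {U W Ω ι Ω' ι' : Type} [Fintype ι] [Fintype ι'] (I : Game U W Ω ι)
    (I' : Game U W Ω' ι') (eι : ι ≃ ι') (h1 : ∀ e, I'.src (eι e) = I.src e)
    (h2 : ∀ e, I'.dst (eι e) = I.dst e) {μ : ℝ} (h : SecondLE I μ) : SecondLE I' μ := by
  intro f g hf hg
  rw [← Equiv.sum_comp eι] at hf hg
  rw [← Equiv.sum_comp eι, ← Equiv.sum_comp eι (fun e => f (I'.src e) ^ 2),
    ← Equiv.sum_comp eι (fun e => g (I'.dst e) ^ 2)]
  simp only [h1, h2] at hf hg ⊢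
  exact h f g hf hg

end OvlValAux

open OvlValAux in
theorem ovl_value (hq : 0 < q) (a b : ℕ) (hab : 0 < a + b) (I : Inst q) :
    (ovl a b hab I).game.value = (a * I.game.value + b / (q : ℝ)) / (a + b) := by
  haveI : Nonempty (Fin q) := ⟨⟨0, hq⟩⟩
  haveI : Nonempty (Fin I.m) := ⟨⟨0, I.pos⟩⟩
  have h1 : (ovl a b hab I).game.value = (ofX ((toX I.game).overlay a b)).value :=
    value_congr (ofX ((toX I.game).overlay a b)) (ovl a b hab I).game (Equiv.refl _)
      (Equiv.refl _) (tw q a b I.m) (fun e => src_tw a b hab I e) (fun e => dst_tw a b hab I e)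
      (fun e => perm_tw a b hab I e)
  rw [h1, value_ofX, Pool.Agent.Lib.P325x.overlay_value (toX I.game) hab, value_toX,
    Fintype.card_fin]

open OvlValAux in
theorem ovl_gap (hq : 0 < q) (a b : ℕ) (hab : 0 < a + b) (I : Inst q) :
    SecondLE (ovl a b hab I).game ((a : ℝ) / (a + b)) := by
  haveI : Nonempty (Fin q) := ⟨⟨0, hq⟩⟩
  haveI : Nonempty (Fin I.m) := ⟨⟨0, I.pos⟩⟩
  have key := Pool.Agent.Lib.P325x.overlay_gap (toX I.game) hab
  exact gap_congr (ofX ((toX I.game).overlay a b)) (ovl a b hab I).game (tw q a b I.m)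
    (fun e => src_tw a b hab I e) (fun e => dst_tw a b hab I e) key

end Pool.Agent.P325e
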