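import Mathlib
import Pool.Agent.Lib.P325e.OvlVal
import Pool.Agent.Lib.P325e.OvlPoly
import Pool.Agent.Lib.P325n.Closure
import Pool.Agent.Lib.P325f1f.Dich.Games

/-!
# The conjecture implies NP-hardness on graphs with a spectral gap
-/

open Finset
open scoped BigOperators

namespace Pool.Agent.P325e

open Pool.Agent.P325f1f.Dich Pool.Agent.P325n

theorem value_ge {q : ℕ} (hq : 0 < q) (I : Inst q) : 1 / (q : ℝ) ≤ I.game.value := by
  have hm : Nonempty (Fin I.m) := ⟨⟨0, I.pos⟩⟩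
  have hq' : (0 : ℝ) < q := by exact_mod_cast hq
  have h1 : ∑ j : Fin q, I.game.satFrac (fun _ => (⟨0, hq⟩ : Fin q)) (fun _ => j) = 1 := by
    simp_rw [satFrac_eq]
    rw [← Finset.expect_sum_comm]
    have h2 : ∀ e : Fin I.m, (∑ j : Fin q, if I.game.perm e (⟨0, hq⟩ : Fin q) = j
        then (1 : ℝ) else 0) = 1 := by
      intro e
      rw [Finset.sum_ite_eq, if_pos (mem_univ _)]
    simp_rw [h2]
    exact Fintype.expect_const _
  have h3 : ∑ j : Fin q, I.game.satFrac (fun _ => (⟨0, hq⟩ : Fin q)) (fun _ => j) ≤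
      ∑ _j : Fin q, I.game.value :=
    Finset.sum_le_sum (fun j _ => le_value I.game _ _)
  rw [h1, Finset.sum_const, card_univ, Fintype.card_fin, nsmul_eq_mul] at h3
  rw [div_le_iff₀ hq']
  linarith

theorem expHard_of (c μ : ℚ) (hμ0 : 0 < μ) (hμ1 : μ ≤ 1) (h : GapHard c allPerms) :
    ExpHard (μ * c) μ := by
  intro ε δ hε hδ hεδ
  have hc : 0 < c := by
    by_contra hcon
    push Not at hcon
    have : μ * c ≤ 0 := mul_nonpos_of_nonneg_of_nonpos hμ0.le hcon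
    linarith
  have h0 : μ * c ≤ c := by nlinarith
  obtain ⟨q, hq, P, _, hh⟩ := h ε δ hε hδ (by linarith)
  have hqr : (0 : ℝ) < q := by exact_mod_cast hq
  have hqδ : 1 / (q : ℝ) ≤ ((δ : ℚ) : ℝ) := by
    obtain ⟨I, hI⟩ := hh.exists_no
    exact (value_ge hq I).trans hI.2
  obtain ⟨a, ha⟩ : ∃ a : ℕ, (a : ℚ) = μ.num := by
    refine ⟨μ.num.toNat, ?_⟩
    have h1 : 0 ≤ μ.num := (Rat.num_pos.2 hμ0).le
    have h2 : ((μ.num.toNat : ℤ) : ℚ) = (μ.num : ℚ) := by rw [Int.toNat_of_nonneg h1]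
    exact_mod_cast h2
  have hden : (0 : ℚ) < μ.den := by exact_mod_cast μ.den_pos
  have hμ : μ = a / μ.den := by rw [ha, Rat.num_div_den]
  have hle : a ≤ μ.den := by
    have h1 : (a : ℚ) ≤ μ.den := by
      rw [hμ, div_le_one hden] at hμ1
      exact hμ1
    exact_mod_cast h1
  obtain ⟨b, hb⟩ := Nat.exists_eq_add_of_le hle
  have hab : 0 < a + b := by rw [← hb]; exact μ.den_pos
  have hμr : ((μ : ℚ) : ℝ) = (a : ℝ) / (a + b) := by
    have h1 : μ = (a : ℚ) / ((a : ℚ) + b) := by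
      rw [hμ, hb]
      push_cast
      rfl
    rw [h1]
    push_cast
    rfl
  have habr : (0 : ℝ) < (a : ℝ) + b := by exact_mod_cast hab
  have hμ0r : (0 : ℝ) < μ := by exact_mod_cast hμ0
  have hμ1r : (μ : ℝ) ≤ 1 := by exact_mod_cast hμ1
  have hbr : (b : ℝ) / (a + b) = 1 - μ := by
    rw [hμr]
    field_simp
    ring
  have hval : ∀ I : Inst q, (ovl a b hab I).game.value = μ * I.game.value + (1 - μ) * (1 / q) := by
    intro I
    rw [ovl_value hq, hμr, ← hμr, ← hbr, hμr]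
    field_simp
  refine ⟨q, hq, hh.map (ovl a b hab) (poly_ovl a b hab) ?_ ?_⟩
  · rintro I ⟨_, hI⟩
    refine ⟨by rw [hμr]; exact ovl_gap hq a b hab I, ?_⟩
    rw [hval]
    have h1 : (0 : ℝ) ≤ (1 - μ) * (1 / q) := mul_nonneg (by linarith) (by positivity)
    have h2 := mul_le_mul_of_nonneg_left hI hμ0r.le
    have hεr : (0 : ℝ) < ε := by exact_mod_cast hε
    push_cast at h2 ⊢
    nlinarith
  · rintro I ⟨_, hI⟩
    refine ⟨by rw [hμr]; exact ovl_gap hq a b hab I, ?_⟩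
    rw [hval]
    have h1 := mul_le_mul_of_nonneg_left hqδ (show (0 : ℝ) ≤ 1 - μ by linarith)
    have h2 := mul_le_mul_of_nonneg_left hI hμ0r.le
    linarith

end Pool.Agent.P325e
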